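import Pool.Agent.helper4.NF.SpecA

set_option autoImplicit false

open Complex MeasureTheory

namespace Pool.Agent.NF

open Pool.Agent.helper84.DM Pool.Agent.helper78.ED Pool.Agent.DH Pool.Agent.ZD

lemma JEX_cpow_norm (n : ℕ) (u : ℝ) : ‖(n : ℂ) ^ (-((u : ℂ) * I))‖ ≤ 1 := by
  rcases Nat.eq_zero_or_pos n with h | h
  · subst h
    by_cases hu : (-((u : ℂ) * I)) = 0
    · rw [hu]; simp
    · rw [Nat.cast_zero, Complex.zero_cpow hu]; simp
  · have h1 : (0 : ℝ) < n := by exact_mod_cast h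
    have h2 : ‖((n : ℝ) : ℂ) ^ (-((u : ℂ) * I))‖ = (n : ℝ) ^ ((-((u : ℂ) * I)).re) :=
      Complex.norm_cpow_eq_rpow_re_of_pos h1 _
    have h3 : (-((u : ℂ) * I)).re = 0 := by simp
    rw [h3, Real.rpow_zero] at h2
    have h4 : ((n : ℝ) : ℂ) = (n : ℂ) := by push_cast; rfl
    rw [h4] at h2
    exact h2.le

lemma JEX_DG_meas (A : Finset ℕ) (b : ℕ → ℂ) : Measurable (fun u : ℝ => DG A b u) := by
  unfold DG
  refine Finset.measurable_sum _ fun n _ => ?_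
  refine Measurable.const_mul ?_ _
  fun_prop

lemma JEX_DG_bd (A : Finset ℕ) (b : ℕ → ℂ) (u : ℝ) : ‖DG A b u‖ ≤ ∑ n ∈ A, ‖b n‖ := by
  unfold DG
  refine (norm_sum_le _ _).trans (Finset.sum_le_sum fun n _ => ?_)
  rw [norm_mul]
  calc ‖b n‖ * _ ≤ ‖b n‖ * 1 := by
        gcongr
        exact JEX_cpow_norm n u
    _ = ‖b n‖ := mul_one _

lemma JEX_int {g : ℝ → ℝ} {X : ℝ} {M : ℕ} {T : ℝ} (hT : 0 < T) (hc : Continuous (BW g X M))
    {B : ℝ} (hB : ∀ u, ‖BW g X M u‖ ≤ B) (A : Finset ℕ) (b : ℕ → ℂ) (t₁ t₂ : ℝ) :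
    Integrable fun τ : ℝ => ((‖DG A b τ‖ ^ 2 * Real.exp (-(τ / T) ^ 2) : ℝ) : ℂ) *
      (BW g X M (τ - t₁) * (starRingEnd ℂ) (BW g X M (τ - t₂))) := by
  have hgauss : Integrable fun τ : ℝ => Real.exp (-(τ / T) ^ 2) := by
    have h1 : Integrable fun τ : ℝ => Real.exp (-(1 / T ^ 2) * τ ^ 2) :=
      integrable_exp_neg_mul_sq (by positivity)
    refine h1.congr (Filter.Eventually.of_forall fun τ => ?_)
    simp only
    congr 1
    field_simp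
  have hB0 : 0 ≤ B := (norm_nonneg _).trans (hB 0)
  set S : ℝ := ∑ n ∈ A, ‖b n‖ with hS
  have hS0 : 0 ≤ S := Finset.sum_nonneg fun _ _ => norm_nonneg _
  refine Integrable.mono' (hgauss.const_mul (S ^ 2 * (B * B))) ?_ ?_
  · refine Measurable.aestronglyMeasurable ?_
    refine Measurable.mul ?_ ?_
    · refine Complex.measurable_ofReal.comp ?_
      refine Measurable.mul ?_ (by fun_prop)
      exact ((JEX_DG_meas A b).norm).pow_const 2
    · have h1 : Continuous fun τ : ℝ => BW g X M (τ - t₁) * (starRingEnd ℂ) (BW g X M (τ - t₂)) := by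
        have h2 : Continuous fun τ : ℝ => BW g X M (τ - t₁) := hc.comp (by fun_prop)
        have h3 : Continuous fun τ : ℝ => BW g X M (τ - t₂) := hc.comp (by fun_prop)
        exact h2.mul (Complex.continuous_conj.comp h3)
      exact h1.measurable
  · refine Filter.Eventually.of_forall fun τ => ?_
    rw [norm_mul, norm_mul, Complex.norm_real, RCLike.norm_conj, Real.norm_eq_abs,
      abs_of_nonneg (by positivity)]
    have h1 := JEX_DG_bd A b τ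
    have h2 := hB (τ - t₁)
    have h3 := hB (τ - t₂)
    calc ‖DG A b τ‖ ^ 2 * Real.exp (-(τ / T) ^ 2) * (‖BW g X M (τ - t₁)‖ * ‖BW g X M (τ - t₂)‖)
        ≤ S ^ 2 * Real.exp (-(τ / T) ^ 2) * (B * B) := by gcongr
      _ = S ^ 2 * (B * B) * Real.exp (-(τ / T) ^ 2) := by ring

theorem JEX (hA : EXA_stmt) (hD : DRV_stmt) : JEX_stmt := by
  intro g hg T W f X M X₀ A b hT
  obtain ⟨-, hadd, hconj, -, -, -, hBX, -, -⟩ := hA
  obtain ⟨hc, B, hB⟩ := hD.1 g hg X M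
  have hexp : ∀ (τ : ℝ) (k : ℕ), ((‖FG g W f X M τ k‖ ^ 2 : ℝ) : ℂ) =
      ∑ t₁ ∈ W, ∑ t₂ ∈ W, (f t₁ * (starRingEnd ℂ) (f t₂) * ex (-((t₁ - t₂) * Real.log k))) *
        (BW g X M (τ - t₁) * (starRingEnd ℂ) (BW g X M (τ - t₂))) := by
    intro τ k
    have h1 : ((‖FG g W f X M τ k‖ ^ 2 : ℝ) : ℂ) =
        FG g W f X M τ k * (starRingEnd ℂ) (FG g W f X M τ k) := by
      rw [Complex.mul_conj, Complex.normSq_eq_norm_sq]
    rw [h1]
    unfold FG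
    rw [map_sum, Finset.sum_mul_sum]
    refine Finset.sum_congr rfl fun t₁ _ => Finset.sum_congr rfl fun t₂ _ => ?_
    rw [map_mul, map_mul, hconj]
    have h2 : ex (-((t₁ - t₂) * Real.log k)) = ex (-(t₁ * Real.log k)) * ex (-(-(t₂ * Real.log k))) := by
      rw [← hadd]
      congr 1
      ring
    rw [h2]
    ring
  have hk : ∀ k : ℕ, ((∫ τ : ℝ, ‖DG A b τ‖ ^ 2 * ‖FG g W f X M τ k‖ ^ 2 * Real.exp (-(τ / T) ^ 2) : ℝ) : ℂ) =
      ∑ t₁ ∈ W, ∑ t₂ ∈ W, (f t₁ * (starRingEnd ℂ) (f t₂) * ex (-((t₁ - t₂) * Real.log k))) *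
        IW T g X M A b t₁ t₂ := by
    intro k
    rw [← integral_complex_ofReal]
    have h1 : ∀ τ : ℝ, ((‖DG A b τ‖ ^ 2 * ‖FG g W f X M τ k‖ ^ 2 * Real.exp (-(τ / T) ^ 2) : ℝ) : ℂ) =
        ∑ t₁ ∈ W, ∑ t₂ ∈ W, (f t₁ * (starRingEnd ℂ) (f t₂) * ex (-((t₁ - t₂) * Real.log k))) *
          (((‖DG A b τ‖ ^ 2 * Real.exp (-(τ / T) ^ 2) : ℝ) : ℂ) *
            (BW g X M (τ - t₁) * (starRingEnd ℂ) (BW g X M (τ - t₂)))) := by
      intro τ
      have h2 : ((‖DG A b τ‖ ^ 2 * ‖FG g W f X M τ k‖ ^ 2 * Real.exp (-(τ / T) ^ 2) : ℝ) : ℂ) =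
          ((‖DG A b τ‖ ^ 2 * Real.exp (-(τ / T) ^ 2) : ℝ) : ℂ) * ((‖FG g W f X M τ k‖ ^ 2 : ℝ) : ℂ) := by
        push_cast
        ring
      rw [h2, hexp, Finset.mul_sum]
      refine Finset.sum_congr rfl fun t₁ _ => ?_
      rw [Finset.mul_sum]
      refine Finset.sum_congr rfl fun t₂ _ => ?_
      ring
    simp_rw [h1]
    rw [integral_finsetSum]
    · refine Finset.sum_congr rfl fun t₁ _ => ?_
      rw [integral_finsetSum]
      · refine Finset.sum_congr rfl fun t₂ _ => ?_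
        rw [integral_const_mul]
        rfl
      · intro t₂ _
        exact (JEX_int hT hc hB A b t₁ t₂).const_mul _
    · intro t₁ _
      exact integrable_finsetSum _ fun t₂ _ => (JEX_int hT hc hB A b t₁ t₂).const_mul _
  unfold Jg
  rw [Complex.ofReal_sum]
  calc ∑ k ∈ Finset.Icc 1 ⌊64 * X₀⌋₊, ((Phi ((k : ℝ) / X₀) *
        ∫ τ : ℝ, ‖DG A b τ‖ ^ 2 * ‖FG g W f X M τ k‖ ^ 2 * Real.exp (-(τ / T) ^ 2) : ℝ) : ℂ)
      = ∑ k ∈ Finset.Icc 1 ⌊64 * X₀⌋₊, ∑ t₁ ∈ W, ∑ t₂ ∈ W, ((Phi ((k : ℝ) / X₀) : ℝ) : ℂ) *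
          ((f t₁ * (starRingEnd ℂ) (f t₂) * ex (-((t₁ - t₂) * Real.log k))) *
          IW T g X M A b t₁ t₂) := by
        refine Finset.sum_congr rfl fun k _ => ?_
        rw [Complex.ofReal_mul, hk k, Finset.mul_sum]
        refine Finset.sum_congr rfl fun t₁ _ => ?_
        rw [Finset.mul_sum]
    _ = ∑ t₁ ∈ W, ∑ t₂ ∈ W, ∑ k ∈ Finset.Icc 1 ⌊64 * X₀⌋₊, ((Phi ((k : ℝ) / X₀) : ℝ) : ℂ) *
          ((f t₁ * (starRingEnd ℂ) (f t₂) * ex (-((t₁ - t₂) * Real.log k))) *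
          IW T g X M A b t₁ t₂) := by
        rw [Finset.sum_comm]
        refine Finset.sum_congr rfl fun t₁ _ => ?_
        rw [Finset.sum_comm]
    _ = _ := by
        refine Finset.sum_congr rfl fun t₁ _ => Finset.sum_congr rfl fun t₂ _ => ?_
        rw [hBX, Finset.mul_sum, Finset.sum_mul]
        refine Finset.sum_congr rfl fun k _ => ?_
        ring

end Pool.Agent.NF
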